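import Pool.Agent.Helper71.P4.St

/-!
# Project P4, module P1: the `L¹` norm of `p_n`
-/

set_option autoImplicit false

open MeasureTheory Set Filter Topology
open scoped ENNReal

noncomputable section

namespace Helper71.P4

open Helper69.CR

private lemma cont_pp_P1 (n : ℕ) : Continuous (pp n) := by
  unfold pp
  fun_prop

/-- Cauchy-Schwarz, `StGEN` and `StKER` in `ℝ≥0∞`. -/
private lemma lint_P1 (hG : StGEN) (hP : StPS) (hK : StKER) (n : ℕ) (hn : 1 ≤ n) :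
    (∫⁻ t in Ioo (0 : ℝ) 1, ENNReal.ofReal |pp n t|) ≤
      (ENNReal.ofReal (n / (2 * Real.pi)) * ENNReal.ofReal (3 * Real.sqrt Real.pi)) ^ ((1 : ℝ) / 2) *
        (4 : ℝ≥0∞) ^ ((1 : ℝ) / 2) := by
  have hm : Measurable fun t : ℝ => ENNReal.ofReal (|pp n t| * (1 - t) ^ ((3 / 8 : ℝ))) := by
    have := (cont_pp_P1 n).measurable
    fun_prop
  have hg : Measurable fun t : ℝ => ENNReal.ofReal ((1 - t) ^ (-(3 / 8) : ℝ)) := by
    fun_prop
  have hCS := ENNReal.lintegral_mul_le_Lp_mul_Lq (volume.restrict (Ioo (0 : ℝ) 1))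
    (p := 2) (q := 2) (by exact Real.HolderConjugate.two_two) hm.aemeasurable hg.aemeasurable
  have e1 : (∫⁻ t in Ioo (0 : ℝ) 1, ENNReal.ofReal |pp n t|) =
      ∫⁻ t in Ioo (0 : ℝ) 1, ((fun t : ℝ => ENNReal.ofReal (|pp n t| * (1 - t) ^ ((3 / 8 : ℝ)))) *
        fun t : ℝ => ENNReal.ofReal ((1 - t) ^ (-(3 / 8) : ℝ))) t := by
    refine setLIntegral_congr_fun measurableSet_Ioo fun t ht => ?_
    have h1 : 0 < 1 - t := by linarith [ht.2]
    simp only [Pi.mul_apply]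
    rw [← ENNReal.ofReal_mul (by positivity), mul_assoc, ← Real.rpow_add h1]
    norm_num
  have e2 : (∫⁻ t in Ioo (0 : ℝ) 1,
      ENNReal.ofReal (|pp n t| * (1 - t) ^ ((3 / 8 : ℝ))) ^ (2 : ℝ)) =
      ∫⁻ t in Ioo (0 : ℝ) 1, ENNReal.ofReal ((1 - t) * pp n t ^ 2) *
        ENNReal.ofReal ((1 - t) ^ (-(1 / 4) : ℝ)) := by
    refine setLIntegral_congr_fun measurableSet_Ioo fun t ht => ?_
    have h1 : 0 < 1 - t := by linarith [ht.2]
    rw [ENNReal.rpow_two, ← ENNReal.ofReal_pow (by positivity),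
      ← ENNReal.ofReal_mul (by positivity)]
    congr 1
    rw [mul_pow, sq_abs, ← Real.rpow_natCast ((1 - t) ^ (3 / 8 : ℝ)) 2, ← Real.rpow_mul h1.le]
    have h2 : (1 - t) ^ ((3 / 8 : ℝ) * ((2 : ℕ) : ℝ)) = (1 - t) * (1 - t) ^ (-(1 / 4) : ℝ) := by
      rw [← Real.rpow_one_add' h1.le (by norm_num)]
      norm_num
    rw [h2]
    ring
  have e3 : (∫⁻ t in Ioo (0 : ℝ) 1, ENNReal.ofReal ((1 - t) ^ (-(3 / 8) : ℝ)) ^ (2 : ℝ)) = 4 := by
    rw [← hK.2.1]
    refine setLIntegral_congr_fun measurableSet_Ioo fun t ht => ?_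
    have h1 : 0 < 1 - t := by linarith [ht.2]
    rw [ENNReal.rpow_two, ← ENNReal.ofReal_pow (by positivity)]
    congr 1
    rw [← Real.rpow_natCast _ 2, ← Real.rpow_mul h1.le]
    norm_num
  have e4 : (∫⁻ t in Ioo (0 : ℝ) 1, ENNReal.ofReal ((t * (1 - t)) ^ (-(1 / 2) : ℝ)) *
      ENNReal.ofReal ((1 - t) ^ (-(1 / 4) : ℝ))) =
      ∫⁻ t in Ioo (0 : ℝ) 1, ENNReal.ofReal (t ^ (-(1 / 2) : ℝ) * (1 - t) ^ (-(3 / 4) : ℝ)) := by
    refine setLIntegral_congr_fun measurableSet_Ioo fun t ht => ?_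
    have h0 : 0 < t := ht.1
    have h1 : 0 < 1 - t := by linarith [ht.2]
    rw [← ENNReal.ofReal_mul (by positivity)]
    congr 1
    rw [Real.mul_rpow h0.le h1.le, mul_assoc, ← Real.rpow_add h1]
    norm_num
  have h5 := hG n hn _ (hP.1 (1 / 4) (by norm_num))
  rw [e4] at h5
  have h6 := h5.trans (mul_le_mul_right hK.2.2.2 _)
  rw [e1]
  refine hCS.trans ?_
  rw [e2, e3]
  exact mul_le_mul_left (ENNReal.rpow_le_rpow h6 (by norm_num)) _

theorem hP1 : StGEN → StPS → StKER → StP1 := by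
  intro hG hP hK n hn
  have h := lint_P1 hG hP hK n hn
  have hpi := Real.pi_pos
  have hn0 : (0 : ℝ) ≤ n := Nat.cast_nonneg n
  have hR : (ENNReal.ofReal (n / (2 * Real.pi)) * ENNReal.ofReal (3 * Real.sqrt Real.pi)) ^
      ((1 : ℝ) / 2) * (4 : ℝ≥0∞) ^ ((1 : ℝ) / 2) =
      ENNReal.ofReal (Real.sqrt (n / (2 * Real.pi) * (3 * Real.sqrt Real.pi) * 4)) := by
    rw [← ENNReal.mul_rpow_of_nonneg _ _ (by norm_num), ← ENNReal.ofReal_mul (by positivity),
      show (4 : ℝ≥0∞) = ENNReal.ofReal 4 by norm_num,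
      ← ENNReal.ofReal_mul (by positivity), ENNReal.ofReal_rpow_of_nonneg (by positivity)
        (by norm_num), ← Real.sqrt_eq_rpow]
  rw [hR] at h
  have hI : ∫ t in (0 : ℝ)..1, |pp n t| =
      (∫⁻ t in Ioo (0 : ℝ) 1, ENNReal.ofReal |pp n t|).toReal := by
    rw [intervalIntegral.integral_of_le zero_le_one, integral_Ioc_eq_integral_Ioo,
      integral_eq_lintegral_of_nonneg_ae (Eventually.of_forall fun t => abs_nonneg _)
        ((cont_pp_P1 n).abs.aestronglyMeasurable)]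
  rw [hI]
  have h2 := ENNReal.toReal_mono ENNReal.ofReal_ne_top h
  rw [ENNReal.toReal_ofReal (Real.sqrt_nonneg _)] at h2
  refine h2.trans ?_
  rw [show (37 : ℝ) / 20 * Real.sqrt n = Real.sqrt ((37 / 20) ^ 2 * n) by
    rw [Real.sqrt_mul (by positivity), Real.sqrt_sq (by norm_num)]]
  refine Real.sqrt_le_sqrt ?_
  have hs : 0 < Real.sqrt Real.pi := Real.sqrt_pos.2 hpi
  have hss : Real.sqrt Real.pi * Real.sqrt Real.pi = Real.pi := Real.mul_self_sqrt hpi.le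
  have h3 : (177 / 100 : ℝ) ≤ Real.sqrt Real.pi := by
    refine Real.le_sqrt_of_sq_le ?_
    have := Real.pi_gt_d2
    norm_num at this ⊢
    linarith
  have h4 : (n : ℝ) / (2 * Real.pi) * (3 * Real.sqrt Real.pi) * 4 = 6 * n / Real.sqrt Real.pi := by
    rw [eq_div_iff hs.ne']
    have : (n : ℝ) / (2 * Real.pi) * (3 * Real.sqrt Real.pi) * 4 * Real.sqrt Real.pi =
        6 * n * (Real.sqrt Real.pi * Real.sqrt Real.pi) / Real.pi := by
      field_simp
      ring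
    rw [this, hss]
    field_simp
  rw [h4, div_le_iff₀ hs]
  nlinarith [mul_le_mul_of_nonneg_left h3 hn0]

end Helper71.P4
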